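import Pool.Agent.Helper85.FC.Defs

/-!
Closure of the class of (internal) conjunctive queries under finite union.
-/

namespace Pool.Agent.Helper49.FCUnion

open Pool.Agent.Helper85.FC

/-! ### Regular languages -/

theorem isRegular_of_step {A S : Type} [Finite S] (f : List A → S) (step : S → A → S)
    (h : ∀ u b, f (u ++ [b]) = step (f u) b) (P : S → Prop) (L : Language A)
    (hL : ∀ u, u ∈ L ↔ P (f u)) : L.IsRegular := by
  classical
  have := Fintype.ofFinite S
  refine ⟨S, inferInstance, ⟨step, f [], {s | P s}⟩, ?_⟩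
  ext u
  rw [hL u]
  have : ∀ u : List A, (DFA.mk step (f []) {s | P s}).eval u = f u := by
    intro u
    induction u using List.reverseRecOn with
    | nil => rfl
    | append_singleton u b ih => rw [DFA.eval_append_singleton, ih, h u b]
  rw [DFA.mem_accepts, this u]
  rfl

section Reg

variable {A : Type}

def Lall (a : A) : Language A := {u | ∀ b ∈ u, b = a}

def Lavoid (d : A) : Language A := {u | d ∉ u}

def Lhead (P : Option A → Prop) : Language A := {u | P u.head?}

def Llast (P : Option A → Prop) : Language A := {u | P u.getLast?}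

def Lle1 : Language A := {u | u.length ≤ 1}

def Lodd : Language A := {u | u = [] ∨ Odd u.length}

def Lin (d : A) : Language A := {u | u = [] ∨ u = [d]}

theorem reg_all (a : A) : (Lall a).IsRegular := by
  refine isRegular_of_step (S := Prop) (fun u => ∀ b ∈ u, b = a) (fun p b => p ∧ b = a) ?_ id _ ?_
  · intro u b
    apply propext
    simp only [List.mem_append, List.mem_singleton]
    constructor
    · intro h
      exact ⟨fun c hc => h c (Or.inl hc), h b (Or.inr rfl)⟩
    · rintro ⟨h1, h2⟩ c (hc | hc)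
      · exact h1 c hc
      · rw [hc, h2]
  · intro u; rfl

theorem reg_avoid (d : A) : (Lavoid d).IsRegular := by
  refine isRegular_of_step (S := Prop) (fun u => d ∉ u) (fun p b => p ∧ b ≠ d) ?_ id _ ?_
  · intro u b
    apply propext
    simp only [List.mem_append, List.mem_singleton, not_or]
    constructor
    · rintro ⟨h1, h2⟩
      exact ⟨h1, fun h => h2 h.symm⟩
    · rintro ⟨h1, h2⟩
      exact ⟨h1, fun h => h2 h.symm⟩
  · intro u; rfl

theorem reg_head [Finite A] (P : Option A → Prop) : (Lhead P).IsRegular := by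
  refine isRegular_of_step (S := Option A) (fun u => u.head?)
    (fun o b => o.or (some b)) ?_ P _ ?_
  · intro u b
    cases u <;> simp
  · intro u; rfl

theorem reg_last [Finite A] (P : Option A → Prop) : (Llast P).IsRegular := by
  refine isRegular_of_step (S := Option A) (fun u => u.getLast?)
    (fun _ b => some b) ?_ P _ ?_
  · intro u b
    simp
  · intro u; rfl

theorem reg_le1 : (Lle1 : Language A).IsRegular := by
  refine isRegular_of_step (S := Prop × Prop) (fun u => (u = [], u.length ≤ 1))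
    (fun p _ => (False, p.1)) ?_ (fun p => p.2) _ ?_
  · intro u b
    ext
    · simp
    · simp
  · intro u; rfl

theorem reg_odd : (Lodd : Language A).IsRegular := by
  refine isRegular_of_step (S := Prop × Prop) (fun u => (u = [], Odd u.length))
    (fun p _ => (False, ¬ p.2)) ?_ (fun p => p.1 ∨ p.2) _ ?_
  · intro u b
    ext
    · simp
    · simp [Nat.odd_add_one]
  · intro u; rfl

theorem reg_in (d : A) : (Lin d).IsRegular := by
  refine isRegular_of_step (S := Prop × Prop) (fun u => (u = [], u = [d]))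
    (fun p b => (False, p.1 ∧ b = d)) ?_ (fun p => p.1 ∨ p.2) _ ?_
  · intro u b
    ext
    · simp
    · cases u <;> simp
  · intro u; rfl

def Lins (L : Language A) : Language A := {u | u = [] ∨ u ∈ L}

theorem reg_ins [Finite A] (L : Language A) (hL : L.IsRegular) : (Lins L).IsRegular := by
  have h := (reg_head (fun o : Option A => o = none)).add hL
  convert h using 1
  ext u
  change (u = [] ∨ u ∈ L) ↔ (u.head? = none ∨ u ∈ L)
  rw [List.head?_eq_none_iff]

end Reg

/-! ### Renaming -/

section Ren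

variable {A V W : Type}

def renP (f : V → W) (α : Pattern A V) : Pattern A W := α.map (Sum.map id f)

theorem subst_renP (f : V → W) (τ : W → List A) (α : Pattern A V) :
    subst τ (renP f α) = subst (fun x => τ (f x)) α := by
  induction α with
  | nil => rfl
  | cons c α ih =>
    simp only [subst, renP, List.map_cons, List.flatMap_cons] at ih ⊢
    rw [ih]
    cases c <;> rfl

def ren (f : V → W) (φ : SCQ A V) : SCQ A W :=
  ⟨φ.eqs.map (fun e => (f e.1, renP f e.2)), φ.regs.map (fun r => (f r.1, r.2))⟩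

theorem sat_ren (f : V → W) (φ : SCQ A V) (τ : W → List A) :
    (ren f φ).Sat τ ↔ φ.Sat (fun x => τ (f x)) := by
  simp only [SCQ.Sat, ren, List.forall_mem_map, subst_renP]

theorem reg_ren (f : V → W) (φ : SCQ A V) (h : φ.Reg) : (ren f φ).Reg := by
  simp only [SCQ.Reg, ren, List.forall_mem_map]
  exact h

theorem lang_ren (f : V → W) (hf : Function.Injective f) (φ : SCQ A V) (w : V) :
    (ren f φ).lang (f w) = φ.lang w := by
  ext u
  constructor
  · rintro ⟨τ, h1, h2, h3⟩
    exact ⟨fun x => τ (f x), fun x => h1 (f x), (sat_ren f φ τ).1 h2, h3⟩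
  · rintro ⟨σ, h1, h2, h3⟩
    have hx : ∀ x, Function.extend f σ (fun _ => []) (f x) = σ x := fun x => hf.extend_apply _ _ _
    refine ⟨Function.extend f σ (fun _ => []), ?_, ?_, ?_⟩
    · intro z
      rw [hx w]
      by_cases hz : ∃ x, f x = z
      · obtain ⟨x, rfl⟩ := hz
        rw [hx x]
        exact h1 x
      · rw [Function.extend_apply' _ _ _ hz]
        exact List.nil_infix
    · rw [sat_ren]
      have : (fun x => Function.extend f σ (fun _ => []) (f x)) = σ := funext hx
      rw [this]
      exact h2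
    · rw [hx w]
      exact h3

end Ren

/-! ### Switches -/

structure Switch {A V : Type} (Q : SCQ A V) (x t : V) (L : Set (List A)) : Prop where
  reg : Q.Reg
  nil : Q.Sat (fun _ => [])
  off : ∀ σ, Q.Sat σ → σ t = [] → σ x = []
  sound : ∀ σ, Q.Sat σ → (∀ y, σ y <:+: σ x) → σ x = [] ∨ σ x ∈ L
  complete : ∀ u ∈ L, ∃ σ, Q.Sat σ ∧ σ x = u ∧ (σ t).length ≤ 1 ∧ ∀ y, σ y <:+: u

def Switchable {A : Type} (L : Set (List A)) : Prop :=
  ∃ (V : Type) (_ : Countable V) (Q : SCQ A V) (x t : V), Switch Q x t L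

theorem Switchable.empty {A : Type} [Finite A] : Switchable (∅ : Set (List A)) := by
  refine ⟨Unit, inferInstance, ⟨[], [((), Lhead (fun o => o = none))]⟩, (), (), ?_, ?_, ?_, ?_, ?_⟩
  · intro r hr
    simp only [List.mem_singleton] at hr
    subst hr
    exact reg_head (A := A) (fun o => o = none)
  · refine ⟨by simp, ?_⟩
    intro r hr
    simp only [List.mem_singleton] at hr
    subst hr
    rfl
  · intro σ _ h
    exact h
  · intro σ h _
    left
    have := h.2 _ (List.mem_singleton.2 rfl)
    exact List.head?_eq_none_iff.1 this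
  · intro u hu
    exact hu.elim

theorem Switchable.union {A : Type} {L1 L2 : Set (List A)}
    (h1 : Switchable L1) (h2 : Switchable L2) : Switchable (L1 ∪ L2) := by
  obtain ⟨V1, hV1, Q1, x1, t1, s1⟩ := h1
  obtain ⟨V2, hV2, Q2, x2, t2, s2⟩ := h2
  let i1 : V1 → (V1 ⊕ V2) ⊕ Bool := fun z => Sum.inl (Sum.inl z)
  let i2 : V2 → (V1 ⊕ V2) ⊕ Bool := fun z => Sum.inl (Sum.inr z)
  let x : (V1 ⊕ V2) ⊕ Bool := Sum.inr true
  let t : (V1 ⊕ V2) ⊕ Bool := Sum.inr false
  let Q : SCQ A ((V1 ⊕ V2) ⊕ Bool) :=
    ⟨(x, [Sum.inr (i1 x1), Sum.inr (i2 x2)]) :: (t, [Sum.inr (i1 t1), Sum.inr (i2 t2)]) ::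
      ((ren i1 Q1).eqs ++ (ren i2 Q2).eqs),
     (t, Lle1) :: ((ren i1 Q1).regs ++ (ren i2 Q2).regs)⟩
  have hsat : ∀ σ, Q.Sat σ ↔ (σ x = σ (i1 x1) ++ σ (i2 x2)) ∧ (σ t = σ (i1 t1) ++ σ (i2 t2)) ∧
      (σ t).length ≤ 1 ∧ Q1.Sat (fun z => σ (i1 z)) ∧ Q2.Sat (fun z => σ (i2 z)) := by
    intro σ
    rw [← sat_ren i1 Q1 σ, ← sat_ren i2 Q2 σ]
    simp only [SCQ.Sat, Q, List.forall_mem_cons, List.forall_mem_append, subst,
      List.flatMap_cons, List.flatMap_nil, Sum.elim_inr, List.append_nil]
    have : (σ t ∈ (Lle1 : Language A)) ↔ (σ t).length ≤ 1 := Iff.rfl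
    rw [this]
    tauto
  refine ⟨_, inferInstance, Q, x, t, ?_, ?_, ?_, ?_, ?_⟩
  · intro r hr
    simp only [Q, List.mem_cons, List.mem_append] at hr
    rcases hr with rfl | hr | hr
    · exact reg_le1
    · exact reg_ren i1 Q1 s1.reg r hr
    · exact reg_ren i2 Q2 s2.reg r hr
  · rw [hsat]
    exact ⟨rfl, rfl, Nat.zero_le _, s1.nil, s2.nil⟩
  · intro σ h ht
    obtain ⟨hx, ht', _, a1, a2⟩ := (hsat σ).1 h
    rw [ht] at ht'
    have e := List.append_eq_nil_iff.1 ht'.symm
    rw [hx, s1.off _ a1 e.1, s2.off _ a2 e.2]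
    rfl
  · intro σ h hy
    obtain ⟨hx, ht', hl, a1, a2⟩ := (hsat σ).1 h
    rw [ht', List.length_append] at hl
    have : σ (i1 t1) = [] ∨ σ (i2 t2) = [] := by
      by_contra hc
      rw [not_or] at hc
      have := List.length_pos_iff.2 hc.1
      have := List.length_pos_iff.2 hc.2
      omega
    rcases this with e | e
    · have e1 : σ (i1 x1) = [] := s1.off _ a1 e
      have e2 : σ x = σ (i2 x2) := by rw [hx, e1]; rfl
      have := s2.sound _ a2 (fun y => by
        have := hy (i2 y)
        rwa [e2] at this)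
      rw [e2]
      rcases this with h | h
      · exact Or.inl h
      · exact Or.inr (Or.inr h)
    · have e1 : σ (i2 x2) = [] := s2.off _ a2 e
      have e2 : σ x = σ (i1 x1) := by rw [hx, e1, List.append_nil]
      have := s1.sound _ a1 (fun y => by
        have := hy (i1 y)
        rwa [e2] at this)
      rw [e2]
      rcases this with h | h
      · exact Or.inl h
      · exact Or.inr (Or.inl h)
  · rintro u (hu | hu)
    · obtain ⟨σ, a, b, c, d⟩ := s1.complete u hu
      refine ⟨Sum.elim (Sum.elim σ (fun _ => [])) (fun z => if z then u else σ t1), ?_, rfl, ?_, ?_⟩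
      · rw [hsat]
        refine ⟨?_, ?_, c, a, s2.nil⟩
        · change u = σ x1 ++ []
          rw [b, List.append_nil]
        · change σ t1 = σ t1 ++ []
          rw [List.append_nil]
      · exact c
      · rintro ((y | y) | y)
        · exact d y
        · exact List.nil_infix
        · cases y
          · exact d t1
          · exact List.infix_rfl
    · obtain ⟨σ, a, b, c, d⟩ := s2.complete u hu
      refine ⟨Sum.elim (Sum.elim (fun _ => []) σ) (fun z => if z then u else σ t2), ?_, rfl, ?_, ?_⟩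
      · rw [hsat]
        refine ⟨?_, ?_, c, s1.nil, a⟩
        · change u = [] ++ σ x2
          rw [b, List.nil_append]
        · change σ t2 = [] ++ σ t2
          rw [List.nil_append]
      · exact c
      · rintro ((y | y) | y)
        · exact List.nil_infix
        · exact d y
        · cases y
          · exact d t2
          · exact List.infix_rfl

theorem Switchable.biUnion {A ι : Type} [Finite A] (s : Finset ι) (L : ι → Set (List A))
    (h : ∀ i ∈ s, Switchable (L i)) : Switchable {u | ∃ i ∈ s, u ∈ L i} := by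
  classical
  induction s using Finset.induction_on with
  | empty =>
    convert (Switchable.empty : Switchable (∅ : Set (List A))) using 1
    ext u
    simp
  | insert a s _ ih =>
    have := (h a (Finset.mem_insert_self a s)).union
      (ih fun i hi => h i (Finset.mem_insert_of_mem hi))
    convert this using 1
    ext u
    simp

theorem Switchable.iUnion {A ι : Type} [Finite A] [Finite ι] (L : ι → Set (List A))
    (h : ∀ i, Switchable (L i)) : Switchable {u | ∃ i, u ∈ L i} := by
  have := Fintype.ofFinite ι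
  have h2 := Switchable.biUnion Finset.univ L (fun i _ => h i)
  convert h2 using 1
  ext u
  simp

/-! ### From switches to queries -/

theorem exists_scq {A : Type} [Finite A] {L : Set (List A)} (h : Switchable L) (b : Prop) :
    ∃ ψ : SCQ A ℕ, ψ.Reg ∧ ∀ u, u ∈ ψ.lang 0 ↔ ((u = [] ∧ b) ∨ (u ≠ [] ∧ u ∈ L)) := by
  classical
  obtain ⟨V, hV, Q, x, t, s⟩ := h
  obtain ⟨f0, hf0⟩ := exists_injective_nat V
  let f : V → ℕ := fun z => Equiv.swap (f0 x) 0 (f0 z)
  have hf : Function.Injective f := (Equiv.injective _).comp hf0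
  have hfx : f x = 0 := Equiv.swap_apply_left _ _
  have key : ∀ u, u ∈ Q.lang x ↔ (u = [] ∨ u ∈ L) := by
    intro u
    constructor
    · rintro ⟨σ, h1, h2, rfl⟩
      exact s.sound σ h2 h1
    · rintro (rfl | hu)
      · exact ⟨fun _ => [], fun _ => List.nil_infix, s.nil, rfl⟩
      · obtain ⟨σ, a, b, _, d⟩ := s.complete u hu
        refine ⟨σ, ?_, a, b⟩
        rw [b]
        exact d
  let Q' : SCQ A V := ⟨Q.eqs, (x, Lhead (fun o => o ≠ none ∨ b)) :: Q.regs⟩
  refine ⟨ren f Q', ?_, ?_⟩
  · apply reg_ren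
    intro r hr
    simp only [Q', List.mem_cons] at hr
    rcases hr with rfl | hr
    · exact reg_head (A := A) (fun o => o ≠ none ∨ b)
    · exact s.reg r hr
  · intro u
    rw [← hfx, lang_ren f hf]
    have : u ∈ Q'.lang x ↔ (u ∈ Q.lang x ∧ (u.head? ≠ none ∨ b)) := by
      constructor
      · rintro ⟨σ, h1, ⟨h2, h3⟩, rfl⟩
        rw [List.forall_mem_cons] at h3
        exact ⟨⟨σ, h1, ⟨h2, h3.2⟩, rfl⟩, h3.1⟩
      · rintro ⟨⟨σ, h1, ⟨h2, h3⟩, rfl⟩, h4⟩
        refine ⟨σ, h1, ⟨h2, ?_⟩, rfl⟩
        rw [List.forall_mem_cons]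
        exact ⟨h4, h3⟩
    rw [this, key]
    have e : u.head? ≠ none ↔ u ≠ [] := by
      rw [ne_eq, List.head?_eq_none_iff]
    rw [e]
    by_cases hu : u = []
    · simp [hu]
    · simp [hu]

/-! ### Gating a nice query -/

inductive GV (A V : Type) : Type
  | cp (y : V) | m | n | k | r | v | k' | t | s
  | e (d : A) | q (d : A) | g (d : A) | y' (z : V) (d : A)
  deriving Countable

section Gate

variable {A V : Type} (a : A)

open Classical in
noncomputable def gate (d : A) : GV A V := if d = a then GV.t else GV.g d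

noncomputable def gpat (α : Pattern A V) : Pattern A (GV A V) :=
  α.map (Sum.elim (fun d => Sum.inr (gate a d)) (fun z => Sum.inr (GV.cp z)))

theorem subst_gpat (τ : GV A V → List A) (α : Pattern A V)
    (h : ∀ d, Sum.inl d ∈ α → τ (gate a d) = [d]) :
    subst τ (gpat a α) = subst (fun x => τ (GV.cp x)) α := by
  induction α with
  | nil => rfl
  | cons c α ih =>
    have ih' := ih (fun d hd => h d (List.mem_cons_of_mem _ hd))
    simp only [subst, gpat, List.map_cons, List.flatMap_cons] at ih' ⊢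
    rw [ih']
    cases c with
    | inl d =>
      have := h d List.mem_cons_self
      simp [this]
    | inr z => simp

theorem subst_gpat_nil (α : Pattern A V) :
    subst (fun _ => []) (gpat a α) = ([] : List A) := by
  induction α with
  | nil => rfl
  | cons c α ih =>
    simp only [subst, gpat, List.map_cons, List.flatMap_cons] at ih ⊢
    rw [ih]
    cases c <;> rfl

open Classical in
/-- The common first letter of a language. -/
noncomputable def fl (g : Language A) : A :=
  if h : ∃ d, ∀ u ∈ g, u.head? = some d then h.choose else a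

theorem fl_spec (g : Language A) (h : ∃ d, ∀ u ∈ g, u.head? = some d) :
    ∀ u ∈ g, u.head? = some (fl a g) := by
  unfold fl
  rw [dif_pos h]
  exact h.choose_spec

/-- The letters needed by the query. -/
def Needed (φ : SCQ A V) (d : A) : Prop :=
  (∃ e ∈ φ.eqs, Sum.inl d ∈ e.2) ∨ ∃ r ∈ φ.regs, [] ∉ r.2 ∧ fl a r.2 = d

open Classical in
noncomputable def needed [Fintype A] (φ : SCQ A V) : List A :=
  (Finset.univ.filter (fun d => d ≠ a ∧ Needed a φ d)).toList

theorem mem_needed [Fintype A] (φ : SCQ A V) (d : A) :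
    d ∈ needed a φ ↔ d ≠ a ∧ Needed a φ d := by
  classical
  simp [needed]

open Classical in
noncomputable def gated [Fintype A] (φ : SCQ A V) (w : V) : SCQ A (GV A V) where
  eqs := [(GV.cp w, [Sum.inr GV.m, Sum.inr GV.n]),
      (GV.m, [Sum.inr GV.k, Sum.inr GV.k, Sum.inr GV.r]),
      (GV.r, [Sum.inr GV.v, Sum.inr GV.k', Sum.inr GV.k']),
      (GV.t, [Sum.inr GV.v, Sum.inr GV.k']),
      (GV.s, [Sum.inr GV.k, Sum.inr GV.k, Sum.inr GV.t])] ++
    ((needed a φ).map (fun d => (GV.e d, [Sum.inr GV.t, Sum.inr (GV.q d), Sum.inr (GV.g d)])) ++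
    (φ.eqs.map (fun e => (GV.cp e.1, gpat a e.2)) ++
    (φ.regs.filter (fun r => decide ([] ∉ r.2))).map
      (fun r => (GV.cp r.1, [Sum.inr (gate a (fl a r.2)), Sum.inr (GV.y' r.1 (fl a r.2))]))))
  regs := [(GV.m, Lall a), (GV.n, Lhead (fun o => o ≠ some a)), (GV.t, Lle1), (GV.s, Lodd),
      (GV.cp w, Lhead (fun o => o = none ∨ o = some a))] ++
    ((needed a φ).flatMap (fun d => [(GV.e d, Llast (fun o => o = none ∨ o = some d)),
      (GV.q d, Lavoid d), (GV.g d, Lin d)]) ++
    φ.regs.map (fun r => (GV.cp r.1, Lins r.2)))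

/-- Reformulation of satisfaction of the gated query. -/
structure GSat [Fintype A] (φ : SCQ A V) (w : V) (σ : GV A V → List A) : Prop where
  w_eq : σ (GV.cp w) = σ GV.m ++ σ GV.n
  m_eq : σ GV.m = σ GV.k ++ (σ GV.k ++ σ GV.r)
  r_eq : σ GV.r = σ GV.v ++ (σ GV.k' ++ σ GV.k')
  t_eq : σ GV.t = σ GV.v ++ σ GV.k'
  s_eq : σ GV.s = σ GV.k ++ (σ GV.k ++ σ GV.t)
  e_eq : ∀ d ∈ needed a φ, σ (GV.e d) = σ GV.t ++ (σ (GV.q d) ++ σ (GV.g d))
  p_eq : ∀ e ∈ φ.eqs, σ (GV.cp e.1) = subst σ (gpat a e.2)
  y_eq : ∀ r ∈ φ.regs, [] ∉ r.2 →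
    σ (GV.cp r.1) = σ (gate a (fl a r.2)) ++ σ (GV.y' r.1 (fl a r.2))
  m_all : ∀ b ∈ σ GV.m, b = a
  n_head : (σ GV.n).head? ≠ some a
  t_le : (σ GV.t).length ≤ 1
  s_odd : σ GV.s = [] ∨ Odd (σ GV.s).length
  w_head : (σ (GV.cp w)).head? = none ∨ (σ (GV.cp w)).head? = some a
  e_last : ∀ d ∈ needed a φ, (σ (GV.e d)).getLast? = none ∨ (σ (GV.e d)).getLast? = some d
  q_avoid : ∀ d ∈ needed a φ, d ∉ σ (GV.q d)
  g_in : ∀ d ∈ needed a φ, σ (GV.g d) = [] ∨ σ (GV.g d) = [d]
  reg : ∀ r ∈ φ.regs, σ (GV.cp r.1) = [] ∨ σ (GV.cp r.1) ∈ r.2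

theorem gated_sat [Fintype A] (φ : SCQ A V) (w : V) (σ : GV A V → List A) :
    (gated a φ w).Sat σ ↔ GSat a φ w σ := by
  classical
  have h1 : (∀ e ∈ (gated a φ w).eqs, σ e.1 = subst σ e.2) ↔
      (σ (GV.cp w) = σ GV.m ++ σ GV.n ∧ σ GV.m = σ GV.k ++ (σ GV.k ++ σ GV.r) ∧
      σ GV.r = σ GV.v ++ (σ GV.k' ++ σ GV.k') ∧ σ GV.t = σ GV.v ++ σ GV.k' ∧
      σ GV.s = σ GV.k ++ (σ GV.k ++ σ GV.t)) ∧
      (∀ d ∈ needed a φ, σ (GV.e d) = σ GV.t ++ (σ (GV.q d) ++ σ (GV.g d))) ∧
      (∀ e ∈ φ.eqs, σ (GV.cp e.1) = subst σ (gpat a e.2)) ∧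
      (∀ r ∈ φ.regs, [] ∉ r.2 →
        σ (GV.cp r.1) = σ (gate a (fl a r.2)) ++ σ (GV.y' r.1 (fl a r.2))) := by
    simp only [gated, List.forall_mem_append, List.forall_mem_cons, List.forall_mem_map,
      subst, List.flatMap_cons, List.flatMap_nil, Sum.elim_inr, List.append_nil,
      List.mem_filter, decide_eq_true_eq, and_imp]
    simp
  have h2 : (∀ r ∈ (gated a φ w).regs, σ r.1 ∈ r.2) ↔
      ((∀ b ∈ σ GV.m, b = a) ∧ (σ GV.n).head? ≠ some a ∧ (σ GV.t).length ≤ 1 ∧
      (σ GV.s = [] ∨ Odd (σ GV.s).length) ∧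
      ((σ (GV.cp w)).head? = none ∨ (σ (GV.cp w)).head? = some a)) ∧
      (∀ d ∈ needed a φ, ((σ (GV.e d)).getLast? = none ∨ (σ (GV.e d)).getLast? = some d) ∧
        d ∉ σ (GV.q d) ∧ (σ (GV.g d) = [] ∨ σ (GV.g d) = [d])) ∧
      (∀ r ∈ φ.regs, σ (GV.cp r.1) = [] ∨ σ (GV.cp r.1) ∈ r.2) := by
    simp only [gated, List.forall_mem_append, List.forall_mem_cons, List.forall_mem_map,
      List.forall_mem_flatMap]
    have e1 : σ GV.m ∈ Lall a ↔ ∀ b ∈ σ GV.m, b = a := Iff.rfl
    have e2 : σ GV.n ∈ Lhead (fun o : Option A => o ≠ some a) ↔ (σ GV.n).head? ≠ some a := Iff.rfl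
    have e3 : σ GV.t ∈ (Lle1 : Language A) ↔ (σ GV.t).length ≤ 1 := Iff.rfl
    have e4 : σ GV.s ∈ (Lodd : Language A) ↔ (σ GV.s = [] ∨ Odd (σ GV.s).length) := Iff.rfl
    have e5 : σ (GV.cp w) ∈ Lhead (fun o : Option A => o = none ∨ o = some a) ↔
      ((σ (GV.cp w)).head? = none ∨ (σ (GV.cp w)).head? = some a) := Iff.rfl
    have e6 : ∀ d, σ (GV.e d) ∈ Llast (fun o : Option A => o = none ∨ o = some d) ↔
      ((σ (GV.e d)).getLast? = none ∨ (σ (GV.e d)).getLast? = some d) := fun _ => Iff.rfl
    have e7 : ∀ d, σ (GV.q d) ∈ Lavoid d ↔ d ∉ σ (GV.q d) := fun _ => Iff.rfl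
    have e8 : ∀ d, σ (GV.g d) ∈ Lin d ↔ (σ (GV.g d) = [] ∨ σ (GV.g d) = [d]) := fun _ => Iff.rfl
    have e9 : ∀ r : V × Language A, σ (GV.cp r.1) ∈ Lins r.2 ↔
      (σ (GV.cp r.1) = [] ∨ σ (GV.cp r.1) ∈ r.2) := fun _ => Iff.rfl
    simp only [e1, e2, e3, e4, e5, e6, e7, e8, e9, List.not_mem_nil, false_imp_iff,
      implies_true, and_true]
  constructor
  · intro h
    obtain ⟨⟨a1, a2, a3, a4, a5⟩, a6, a7, a8⟩ := h1.1 h.1
    obtain ⟨⟨b1, b2, b3, b4, b5⟩, b6, b7⟩ := h2.1 h.2
    exact ⟨a1, a2, a3, a4, a5, a6, a7, a8, b1, b2, b3, b4, b5, fun d hd => (b6 d hd).1,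
      fun d hd => (b6 d hd).2.1, fun d hd => (b6 d hd).2.2, b7⟩
  · intro h
    exact ⟨h1.2 ⟨⟨h.w_eq, h.m_eq, h.r_eq, h.t_eq, h.s_eq⟩, h.e_eq, h.p_eq, h.y_eq⟩,
      h2.2 ⟨⟨h.m_all, h.n_head, h.t_le, h.s_odd, h.w_head⟩,
        fun d hd => ⟨h.e_last d hd, h.q_avoid d hd, h.g_in d hd⟩, h.reg⟩⟩

theorem gated_reg [Fintype A] (φ : SCQ A V) (w : V) (h : φ.Reg) : (gated a φ w).Reg := by
  classical
  intro r hr
  simp only [gated, List.mem_append, List.mem_cons, List.mem_flatMap, List.mem_map,
    List.not_mem_nil, or_false] at hr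
  rcases hr with (rfl | rfl | rfl | rfl | rfl) | ⟨d, _, rfl | rfl | rfl⟩ | ⟨r, hr, rfl⟩
  · exact reg_all a
  · exact reg_head (A := A) (fun o => o ≠ some a)
  · exact reg_le1
  · exact reg_odd
  · exact reg_head (A := A) (fun o => o = none ∨ o = some a)
  · exact reg_last (A := A) (fun o => o = none ∨ o = some d)
  · exact reg_avoid d
  · exact reg_in d
  · exact reg_ins _ (h r hr)

theorem gated_nil [Fintype A] (φ : SCQ A V) (w : V) : (gated a φ w).Sat (fun _ => []) := by
  rw [gated_sat]
  exact {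
    w_eq := rfl
    m_eq := rfl
    r_eq := rfl
    t_eq := rfl
    s_eq := rfl
    e_eq := fun _ _ => rfl
    p_eq := fun e _ => (subst_gpat_nil a e.2).symm
    y_eq := fun _ _ _ => rfl
    m_all := by simp
    n_head := by simp
    t_le := by simp
    s_odd := Or.inl rfl
    w_head := by simp
    e_last := by simp
    q_avoid := by simp
    g_in := by simp
    reg := fun _ _ => Or.inl rfl }

theorem GSat.off [Fintype A] {φ : SCQ A V} {w : V} {σ : GV A V → List A} (h : GSat a φ w σ)
    (ht : σ GV.t = []) : σ GV.m = [] ∧ σ (GV.cp w) = [] := by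
  have h1 := h.t_eq
  rw [ht] at h1
  obtain ⟨hv, hk'⟩ := List.append_eq_nil_iff.1 h1.symm
  have hr := h.r_eq
  rw [hv, hk'] at hr
  have hs := h.s_eq
  rw [ht, List.append_nil] at hs
  have hk : σ GV.k = [] := by
    rcases h.s_odd with h0 | h0
    · rw [h0] at hs
      exact (List.append_eq_nil_iff.1 hs.symm).1
    · rw [hs, List.length_append] at h0
      exact absurd h0 (by rw [Nat.not_odd_iff_even]; exact ⟨_, rfl⟩)
  have hm := h.m_eq
  rw [hk, hr] at hm
  have hm' : σ GV.m = [] := hm
  refine ⟨hm', ?_⟩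
  have hw := h.w_eq
  rw [hm', List.nil_append] at hw
  rcases h.w_head with h0 | h0
  · exact List.head?_eq_none_iff.1 h0
  · rw [hw] at h0
    exact absurd h0 h.n_head

theorem GSat.t_on [Fintype A] {φ : SCQ A V} {w : V} {σ : GV A V → List A} (h : GSat a φ w σ)
    (ht : σ GV.t ≠ []) : σ GV.t = [a] := by
  have hall : ∀ b ∈ σ GV.t, b = a := by
    intro b hb
    apply h.m_all
    rw [h.m_eq, h.r_eq]
    rw [h.t_eq] at hb
    simp only [List.mem_append] at hb ⊢
    tauto
  have hl := h.t_le
  match hσ : σ GV.t with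
  | [] => exact absurd hσ ht
  | [b] =>
    rw [hσ] at hall
    rw [hall b (List.mem_singleton.2 rfl)]
  | b :: c :: l =>
    rw [hσ] at hl
    simp at hl

theorem GSat.gate_on [Fintype A] {φ : SCQ A V} {w : V} {σ : GV A V → List A}
    (h : GSat a φ w σ) (ht : σ GV.t ≠ []) (d : A) (hd : Needed a φ d) : σ (gate a d) = [d] := by
  classical
  have hta := h.t_on a ht
  unfold gate
  split_ifs with hda
  · rw [hta, hda]
  · have hmem : d ∈ needed a φ := (mem_needed a φ d).2 ⟨hda, hd⟩
    rcases h.g_in d hmem with hg | hg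
    · exfalso
      have he := h.e_eq d hmem
      rw [hta, hg, List.append_nil] at he
      have hq := h.q_avoid d hmem
      rcases h.e_last d hmem with h0 | h0
      · rw [he] at h0
        simp at h0
      · have : d ∈ σ (GV.e d) := List.mem_of_getLast? h0
        rw [he] at this
        simp only [List.singleton_append, List.mem_cons] at this
        rcases this with h1 | h1
        · exact hda h1
        · exact hq h1
    · exact hg

theorem GSat.solves [Fintype A] {φ : SCQ A V} {w : V} {σ : GV A V → List A}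
    (h : GSat a φ w σ) (ht : σ GV.t ≠ []) : φ.Sat (fun x => σ (GV.cp x)) := by
  constructor
  · intro e he
    change σ (GV.cp e.1) = _
    rw [h.p_eq e he]
    apply subst_gpat
    intro d hd
    exact h.gate_on a ht d (Or.inl ⟨e, he, hd⟩)
  · intro r hr
    rcases h.reg r hr with h0 | h0
    · by_cases hnil : [] ∈ r.2
      · change σ (GV.cp r.1) ∈ r.2
        rw [h0]
        exact hnil
      · exfalso
        have h1 := h.y_eq r hr hnil
        rw [h0, h.gate_on a ht _ (Or.inr ⟨r, hr, hnil, rfl⟩)] at h1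
        simp at h1
    · exact h0

theorem exists_block (u : List A) :
    ∃ (M : ℕ) (n : List A), u = List.replicate M a ++ n ∧ n.head? ≠ some a := by
  classical
  induction u with
  | nil => exact ⟨0, [], rfl, by simp⟩
  | cons b u ih =>
    by_cases hb : b = a
    · obtain ⟨M, n, h1, h2⟩ := ih
      refine ⟨M + 1, n, ?_, h2⟩
      rw [List.replicate_succ, List.cons_append, ← h1, hb]
    · exact ⟨0, b :: u, rfl, by simpa using hb⟩

theorem replicate_infix {j M : ℕ} (h : j ≤ M) (n : List A) :
    List.replicate j a <:+: List.replicate M a ++ n := by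
  refine ⟨[], List.replicate (M - j) a ++ n, ?_⟩
  rw [List.nil_append, ← List.append_assoc, List.replicate_append_replicate]
  congr 2
  omega

/-- The active solution. -/
def act (K R M : ℕ) (n : List A) (e q g : A → List A) (σ0 : V → List A) : GV A V → List A
  | .cp y => σ0 y
  | .m => List.replicate M a
  | .n => n
  | .k => List.replicate K a
  | .r => List.replicate R a
  | .v => List.replicate (2 - R) a
  | .k' => List.replicate (R - 1) a
  | .t => [a]
  | .s => List.replicate (2 * K + 1) a
  | .e d => e d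
  | .q d => q d
  | .g d => g d
  | .y' z _ => (σ0 z).tail

theorem complete_aux [Fintype A] (φ : SCQ A V) (w : V)
    (hn : ∀ r ∈ φ.regs, [] ∈ r.2 ∨ ∃ d, ∀ u ∈ r.2, u.head? = some d)
    (σ0 : V → List A) (hs : φ.Sat σ0) (hfac : ∀ x, σ0 x <:+: σ0 w)
    (hw : (σ0 w).head? = some a) :
    ∃ σ, (gated a φ w).Sat σ ∧ σ (GV.cp w) = σ0 w ∧ (σ GV.t).length ≤ 1 ∧ ∀ y, σ y <:+: σ0 w := by
  classical
  obtain ⟨M, n, hu, hnh⟩ := exists_block a (σ0 w)
  have hM : 1 ≤ M := by
    rcases Nat.eq_zero_or_pos M with h0 | h0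
    · rw [h0] at hu
      rw [hu] at hw
      exact absurd hw hnh
    · exact h0
  obtain ⟨K, R, hMK, hR⟩ : ∃ K R, M = 2 * K + R ∧ (R = 1 ∨ R = 2) := by
    refine ⟨(M - 1) / 2, M - 2 * ((M - 1) / 2), ?_, ?_⟩ <;> omega
  -- needed letters occur
  have hocc : ∀ d, Needed a φ d → d ∈ σ0 w := by
    rintro d (⟨e, he, hd⟩ | ⟨r, hr, hnil, hd⟩)
    · have h1 : d ∈ σ0 e.1 := by
        rw [hs.1 e he]
        exact List.mem_flatMap.2 ⟨_, hd, by simp⟩
      exact (hfac e.1).subset h1
    · have h1 := hs.2 r hr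
      have h2 := fl_spec a r.2 ((hn r hr).resolve_left hnil) _ h1
      rw [hd] at h2
      exact (hfac r.1).subset (List.mem_of_head? h2)
  have hq : ∀ d, ∃ q : List A, d ∈ needed a φ → d ∉ q ∧ a :: (q ++ [d]) <:+: σ0 w := by
    intro d
    by_cases hd : d ∈ needed a φ
    · obtain ⟨hda, hd'⟩ := (mem_needed a φ d).1 hd
      obtain ⟨p, t, h1, h2⟩ := List.eq_append_cons_of_mem (hocc d hd')
      cases p with
      | nil =>
        rw [h1] at hw
        simp only [List.nil_append, List.head?_cons, Option.some.injEq] at hw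
        exact absurd hw hda
      | cons b p =>
        rw [h1] at hw
        simp only [List.cons_append, List.head?_cons, Option.some.injEq] at hw
        refine ⟨p, fun _ => ⟨fun h => h2 (List.mem_cons_of_mem _ h), [], t, ?_⟩⟩
        rw [h1, hw]
        simp
    · exact ⟨[], fun h => absurd h hd⟩
  choose q hq using hq
  let e' : A → List A := fun d => if d ∈ needed a φ then a :: (q d ++ [d]) else []
  let q' : A → List A := fun d => if d ∈ needed a φ then q d else []
  let g' : A → List A := fun d => if d ∈ needed a φ then [d] else []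
  let σ := act a K R M n e' q' g' σ0
  have hgate : ∀ d, Needed a φ d → σ (gate a d) = [d] := by
    intro d hd
    unfold gate
    split_ifs with hda
    · rw [hda]; rfl
    · have : d ∈ needed a φ := (mem_needed a φ d).2 ⟨hda, hd⟩
      change g' d = [d]
      simp only [g', if_pos this]
  refine ⟨σ, ?_, rfl, le_refl 1, ?_⟩
  · rw [gated_sat]
    exact {
      w_eq := hu
      m_eq := by
        change List.replicate M a = List.replicate K a ++ (List.replicate K a ++ List.replicate R a)
        rw [List.replicate_append_replicate, List.replicate_append_replicate]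
        congr 1
        omega
      r_eq := by
        change List.replicate R a = List.replicate (2 - R) a ++
          (List.replicate (R - 1) a ++ List.replicate (R - 1) a)
        rw [List.replicate_append_replicate, List.replicate_append_replicate]
        congr 1
        omega
      t_eq := by
        change List.replicate 1 a = List.replicate (2 - R) a ++ List.replicate (R - 1) a
        rw [List.replicate_append_replicate]
        congr 1
        omega
      s_eq := by
        change List.replicate (2 * K + 1) a = List.replicate K a ++ (List.replicate K a ++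
          List.replicate 1 a)
        rw [List.replicate_append_replicate, List.replicate_append_replicate]
        congr 1
        omega
      e_eq := by
        intro d hd
        change e' d = [a] ++ (q' d ++ g' d)
        simp only [e', q', g', if_pos hd]
        rfl
      p_eq := by
        intro e he
        change σ0 e.1 = _
        rw [subst_gpat a σ e.2 (fun d hd => hgate d (Or.inl ⟨e, he, hd⟩)), hs.1 e he]
        rfl
      y_eq := by
        intro r hr hnil
        rw [hgate _ (Or.inr ⟨r, hr, hnil, rfl⟩)]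
        change σ0 r.1 = [fl a r.2] ++ (σ0 r.1).tail
        have h2 := fl_spec a r.2 ((hn r hr).resolve_left hnil) _ (hs.2 r hr)
        rw [List.singleton_append]
        exact (List.cons_head?_tail h2).symm
      m_all := fun b hb => List.eq_of_mem_replicate hb
      n_head := hnh
      t_le := le_refl 1
      s_odd := by
        right
        change Odd (List.replicate (2 * K + 1) a).length
        rw [List.length_replicate]
        exact ⟨K, rfl⟩
      w_head := Or.inr hw
      e_last := by
        intro d hd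
        right
        change (e' d).getLast? = some d
        simp only [e', if_pos hd]
        exact List.getLast?_concat (l := a :: q d) (a := d)
      q_avoid := by
        intro d hd
        change d ∉ q' d
        simp only [q', if_pos hd]
        exact (hq d hd).1
      g_in := by
        intro d hd
        right
        change g' d = [d]
        simp only [g', if_pos hd]
      reg := fun r hr => Or.inr (hs.2 r hr) }
  · have hrep : ∀ j, j ≤ M → List.replicate j a <:+: σ0 w := by
      intro j hj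
      rw [hu]
      exact replicate_infix a hj n
    intro y
    cases y with
    | cp y => exact hfac y
    | m => exact hrep M le_rfl
    | n => exact hu ▸ (List.suffix_append _ _).isInfix
    | k => exact hrep K (by omega)
    | r => exact hrep R (by omega)
    | v => exact hrep (2 - R) (by omega)
    | k' => exact hrep (R - 1) (by omega)
    | t => exact hrep 1 (by omega)
    | s => exact hrep (2 * K + 1) (by omega)
    | e d =>
      change e' d <:+: σ0 w
      by_cases hd : d ∈ needed a φ
      · simp only [e', if_pos hd]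
        exact (hq d hd).2
      · simp only [e', if_neg hd]
        exact List.nil_infix
    | q d =>
      change q' d <:+: σ0 w
      by_cases hd : d ∈ needed a φ
      · simp only [q', if_pos hd]
        refine List.IsInfix.trans ?_ (hq d hd).2
        exact ⟨[a], [d], by simp⟩
      · simp only [q', if_neg hd]
        exact List.nil_infix
    | g d =>
      change g' d <:+: σ0 w
      by_cases hd : d ∈ needed a φ
      · simp only [g', if_pos hd]
        refine List.IsInfix.trans ?_ (hq d hd).2
        exact ⟨a :: q d, [], by simp⟩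
      · simp only [g', if_neg hd]
        exact List.nil_infix
    | y' z d => exact (List.tail_suffix _).isInfix.trans (hfac z)

theorem nice_switch [Fintype A] (φ : SCQ A V) (w : V) (hreg : φ.Reg)
    (hn : ∀ r ∈ φ.regs, [] ∈ r.2 ∨ ∃ d, ∀ u ∈ r.2, u.head? = some d) :
    Switch (gated a φ w) (GV.cp w) GV.t {u | u ∈ φ.lang w ∧ u.head? = some a} where
  reg := gated_reg a φ w hreg
  nil := gated_nil a φ w
  off := fun σ hσ ht => (((gated_sat a φ w σ).1 hσ).off a ht).2
  sound := by
    intro σ hσ hf
    have h := (gated_sat a φ w σ).1 hσ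
    by_cases ht : σ GV.t = []
    · exact Or.inl (h.off a ht).2
    · rcases h.w_head with h0 | h0
      · exact Or.inl (List.head?_eq_none_iff.1 h0)
      · exact Or.inr ⟨⟨_, fun x => hf (GV.cp x), h.solves a ht, rfl⟩, h0⟩
  complete := by
    rintro u ⟨⟨σ0, h1, h2, rfl⟩, h3⟩
    exact complete_aux a φ w hn σ0 h2 h1 h3

end Gate

/-- Queries with a fixed first letter are switchable. -/
theorem switchable_head {A V : Type} [Fintype A] [Countable V] (a : A) (w : V)
    (eqs : List (V × Pattern A V)) :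
    ∀ (rs ns : List (V × Language A)), (∀ r ∈ rs, r.2.IsRegular) → (∀ r ∈ ns, r.2.IsRegular) →
      (∀ r ∈ ns, [] ∈ r.2 ∨ ∃ d, ∀ u ∈ r.2, u.head? = some d) →
      Switchable {u | u ∈ (SCQ.mk eqs (rs ++ ns)).lang w ∧ u.head? = some a} := by
  intro rs
  induction rs with
  | nil =>
    intro ns _ h1 h2
    exact ⟨_, inferInstance, _, _, _, nice_switch a ⟨eqs, ns⟩ w h1 h2⟩
  | cons r rs ih =>
    intro ns h0 h1 h2
    rw [List.forall_mem_cons] at h0
    let g : Option A → Language A := fun o => r.2 ⊓ Lhead (fun o' => o' = o)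
    have hg : ∀ o, (g o).IsRegular := fun o => h0.1.inf (reg_head _)
    have hg2 : ∀ o, [] ∈ g o ∨ ∃ d, ∀ u ∈ g o, u.head? = some d := by
      intro o
      cases o with
      | none =>
        by_cases h : [] ∈ r.2
        · exact Or.inl ⟨h, rfl⟩
        · right
          refine ⟨a, fun u hu => ?_⟩
          have h3 : u.head? = none := hu.2
          rw [List.head?_eq_none_iff] at h3
          rw [h3] at hu
          exact absurd hu.1 h
      | some d => exact Or.inr ⟨d, fun u hu => hu.2⟩
    have key := Switchable.iUnion (fun o : Option A =>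
      {u | u ∈ (SCQ.mk eqs (rs ++ (r.1, g o) :: ns)).lang w ∧ u.head? = some a})
      (fun o => ih ((r.1, g o) :: ns) h0.2 (by
        rw [List.forall_mem_cons]; exact ⟨hg o, h1⟩) (by
        rw [List.forall_mem_cons]; exact ⟨hg2 o, h2⟩))
    convert key using 1
    ext u
    constructor
    · rintro ⟨⟨σ, hσ1, ⟨hσ2, hσ3⟩, rfl⟩, hu⟩
      simp only [List.cons_append, List.forall_mem_cons, List.forall_mem_append] at hσ3
      refine ⟨(σ r.1).head?, ⟨σ, hσ1, ⟨hσ2, ?_⟩, rfl⟩, hu⟩
      simp only [List.forall_mem_cons, List.forall_mem_append]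
      exact ⟨hσ3.2.1, ⟨hσ3.1, rfl⟩, hσ3.2.2⟩
    · rintro ⟨o, ⟨σ, hσ1, ⟨hσ2, hσ3⟩, rfl⟩, hu⟩
      simp only [List.forall_mem_cons, List.forall_mem_append] at hσ3
      refine ⟨⟨σ, hσ1, ⟨hσ2, ?_⟩, rfl⟩, hu⟩
      simp only [List.cons_append, List.forall_mem_cons, List.forall_mem_append]
      exact ⟨hσ3.2.1.1, hσ3.1, hσ3.2.2⟩

theorem switchable_scq {A V : Type} [Fintype A] [Countable V] (φ : SCQ A V) (w : V)
    (h : φ.Reg) : Switchable {u | u ∈ φ.lang w ∧ u ≠ []} := by
  have key := Switchable.iUnion (fun a : A => {u | u ∈ φ.lang w ∧ u.head? = some a})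
    (fun a => by
      have := switchable_head a w φ.eqs φ.regs [] h (by simp) (by simp)
      rwa [List.append_nil] at this)
  convert key using 1
  ext u
  constructor
  · rintro ⟨h1, h2⟩
    cases u with
    | nil => exact absurd rfl h2
    | cons b u => exact ⟨b, h1, rfl⟩
  · rintro ⟨a, h1, h2⟩
    refine ⟨h1, ?_⟩
    rintro rfl
    simp at h2

theorem switchable_list {A : Type} [Fintype A] (l : List (SCQ A ℕ)) (h : ∀ φ ∈ l, φ.Reg) :
    Switchable {u | (∃ φ ∈ l, u ∈ φ.lang 0) ∧ u ≠ []} := by
  induction l with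
  | nil =>
    convert (Switchable.empty : Switchable (∅ : Set (List A))) using 1
    ext u
    simp
  | cons φ l ih =>
    rw [List.forall_mem_cons] at h
    convert (switchable_scq φ 0 h.1).union (ih h.2) using 1
    ext u
    simp only [List.exists_mem_cons_iff, Set.mem_union, Set.mem_ofPred_eq]
    tauto

theorem union : UnionStatement := by
  intro A _ l hl
  obtain ⟨ψ, h1, h2⟩ := exists_scq (switchable_list l hl) (∃ φ ∈ l, [] ∈ φ.lang 0)
  refine ⟨ψ, h1, ?_⟩
  ext u
  rw [h2 u]
  change _ ↔ ∃ φ ∈ l, u ∈ φ.lang 0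
  by_cases hu : u = []
  · subst hu
    simp
  · simp [hu]

end Pool.Agent.Helper49.FCUnion
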